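import Pool.Agent.R58.SpeciesGrowth

/-! MP_f5c34b_co, Q1: balanced trees and caterpillars are extremal for the number of
duplication-loss histories. -/

namespace Pool.Agent.Results.MP_f5c34b_co.ExtremalTrees

open Pool.Agent.R58.Species Filter Topology

/-- For every `k ≥ 1` there is `N` such that for all `n ≥ N` and all species trees `S` with `k`
leaves, `h_T(n) ≤ h_S(n) ≤ h_{CT_k}(n)`, `T` being the balanced tree with `k` leaves. -/
theorem result : ∀ k : ℕ, 1 ≤ k →
    (∃ T : STree, Balanced T ∧ size T = k) ∧ size (caterpillar k) = k ∧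
    ∃ N : ℕ, ∀ n : ℕ, N ≤ n → ∀ S : STree, size S = k →
      (∀ T : STree, Balanced T → size T = k → hist T n ≤ hist S n) ∧
      hist S n ≤ hist (caterpillar k) n := by
  intro k hk
  exact ⟨⟨bal k, balanced_bal k, size_bal k hk⟩, size_cat k hk,
    eventually_atTop.1 (main_order k)⟩

end Pool.Agent.Results.MP_f5c34b_co.ExtremalTrees
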