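import Pool.Agent.R58.SpeciesGrowth

/-! MP_f5c34b_co, Q2: superlinear growth factors of caterpillars and linear growth factors of
balanced trees. -/

namespace Pool.Agent.Results.MP_f5c34b_co.GrowthFactors

open Pool.Agent.R58.Species Filter Topology

/-- The exponential growth factors `α_S = lim h_S(n)^(1/n)` satisfy `α_{CT_k} / k → ∞` and
`2 k ≤ α_{BT_k} ≤ 100 k`. -/
theorem result : ∃ α : STree → ℝ,
    (∀ S : STree, Tendsto (fun n : ℕ => hist S n ^ (1 / (n : ℝ))) atTop (𝓝 (α S))) ∧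
    Tendsto (fun k : ℕ => α (caterpillar k) / (k : ℝ)) atTop atTop ∧
    ∀ k : ℕ, 1 ≤ k → size (caterpillar k) = k ∧ (∃ T : STree, Balanced T ∧ size T = k) ∧
      ∀ T : STree, Balanced T → size T = k → 2 * (k : ℝ) ≤ α T ∧ α T ≤ 100 * (k : ℝ) :=
  ⟨fun S => 1 / rad S, growth, cat_superlinear, fun k hk =>
    ⟨size_cat k hk, ⟨bal k, balanced_bal k, size_bal k hk⟩,
      fun T hT hs => growth_bounds k hk T hT hs⟩⟩

end Pool.Agent.Results.MP_f5c34b_co.GrowthFactors
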